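import Pool.Agent.Y703.CT.StmF
import Pool.Agent.Y153.CT.RAM

/-!
# Project CT (helper703): local solutions of the diagonal cubic at the good primes (helper379)
-/

set_option autoImplicit false
set_option linter.unusedVariables false

open scoped Classical

namespace Pool.Agent.Y379.CT

open WeierstrassCurve
open Pool.Agent.Y703.CT
open Pool.Agent.Y692.QS (Ei w nr toC)
open Pool.Agent.Y715.T.Rec (cs)
open Pool.Agent.Y715.T.RecG (Pq)
open Pool.Agent.Y715.T.Gi Pool.Agent.Y715.T.Nr Pool.Agent.Y715.T.Df Pool.Agent.Y715.T.Ell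
open Pool.Agent.Y715.T.Red
open Pool.Agent.Y153.CTRAM

variable {p : ℕ} [Fact p.Prime]

/-- cube roots at distance less than one are equal -/
lemma near_root {I : PadicAlgCl p} (hI : I ^ 2 + I + 1 = 0) (hp : p ≠ 3) {s s' : PadicAlgCl p}
    (h3 : s' ^ 3 = s ^ 3) (h2 : ‖s‖ = 1) (h4 : ‖s' - s‖ < 1) : s' = s := by
  obtain ⟨n, hn⟩ := cube_eq hI h3
  have h5 : ‖I ^ n - 1‖ < 1 := by
    have e1 : s' - s = (I ^ n - 1) * s := by rw [hn]; ring
    rwa [e1, norm_mul, h2, mul_one] at h4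
  have hI3 : I ^ 3 = 1 := by linear_combination (I - 1) * hI
  have hIn := norm_I hI
  have h6 : I ^ n = I ^ (n % 3) := by
    conv_lhs => rw [← Nat.div_add_mod n 3]
    rw [pow_add, pow_mul, hI3, one_pow, one_mul]
  have h7 : n % 3 = 0 ∨ n % 3 = 1 ∨ n % 3 = 2 := by omega
  have e2 : (3 : PadicAlgCl p) = (I - 1) * (I ^ 2 - 1) := by
    linear_combination (2 - I) * hI
  rcases h7 with h7 | h7 | h7
  · rw [hn, h6, h7, pow_zero, one_mul]
  · exfalso
    rw [h6, h7, pow_one] at h5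
    have h8 : ‖(3 : PadicAlgCl p)‖ < 1 := by
      rw [e2, mul_comm]
      refine mul_lt ?_ h5
      refine sub_le ?_ (by rw [norm_one])
      rw [norm_pow, hIn, one_pow]
    rw [norm_three_one hp] at h8
    exact lt_irrefl _ h8
  · exfalso
    rw [h6, h7] at h5
    have h8 : ‖(3 : PadicAlgCl p)‖ < 1 := by
      rw [e2]
      refine mul_lt ?_ h5
      refine sub_le ?_ (by rw [norm_one])
      rw [hIn]
    rw [norm_three_one hp] at h8
    exact lt_irrefl _ h8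

/-- Hensel's lemma for cube roots -/
lemma hensel {I : PadicAlgCl p} (hI : I ^ 2 + I + 1 = 0) (hp : p ≠ 3) {c y : PadicAlgCl p}
    (hc : ∀ τ : Au p, τ I = I → τ c = c) (hy : ∀ τ : Au p, τ I = I → τ y = y) (hy1 : ‖y‖ = 1)
    (h : ‖y ^ 3 - c‖ < 1) : ∃ s, s ^ 3 = c ∧ ‖s‖ = 1 ∧ ∀ τ : Au p, τ I = I → τ s = s := by
  obtain ⟨t, ht⟩ := IsAlgClosed.exists_pow_nat_eq c (n := 3) (by norm_num)
  have hI3 : I ^ 3 = 1 := by linear_combination (I - 1) * hI
  have e : y ^ 3 - c = (y - t) * ((y - I * t) * (y - I ^ 2 * t)) := by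
    rw [← ht]
    linear_combination (y ^ 2 * t - I * y * t ^ 2 + (I - 1) * t ^ 3) * hI
  have h1 : ∃ s, s ^ 3 = c ∧ ‖y - s‖ < 1 := by
    by_contra hcon
    push Not at hcon
    have a1 := hcon t ht
    have a2 := hcon (I * t) (by rw [mul_pow, hI3, one_mul, ht])
    have a3 := hcon (I ^ 2 * t) (by
      rw [mul_pow, ← pow_mul, show 2 * 3 = 3 * 2 from rfl, pow_mul, hI3, one_pow, one_mul, ht])
    rw [e, norm_mul, norm_mul] at h
    exact absurd h (not_lt.2 (one_le_mul_of_one_le_of_one_le a1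
      (one_le_mul_of_one_le_of_one_le a2 a3)))
  obtain ⟨s, hs, hys⟩ := h1
  have hsy : ‖s - y‖ < 1 := by rwa [norm_sub_rev]
  have hs1 : ‖s‖ = 1 := by
    have h2 : ‖y + (s - y)‖ = ‖y‖ := eq_of_lt (by rwa [hy1])
    rwa [add_sub_cancel, hy1] at h2
  refine ⟨s, hs, hs1, fun τ hτ => near_root hI hp ?_ hs1 ?_⟩
  · rw [← map_pow, hs, hc τ hτ]
  · have e2 : τ s - s = τ (s - y) + (y - s) := by
      rw [map_sub, hy τ hτ]
      ring
    rw [e2]
    exact add_lt (by rwa [nrm]) hys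

/-- the prime below -/
def PI {I : PadicAlgCl p} (hI : I ^ 2 + I + 1 = 0) : Ideal Ei where
  carrier := {z | ‖ev I hI z‖ < 1}
  add_mem' := fun {a b} ha hb => by
    change ‖ev I hI (a + b)‖ < 1
    rw [map_add]
    exact add_lt ha hb
  zero_mem' := by
    change ‖ev I hI 0‖ < 1
    rw [map_zero, norm_zero]
    exact one_pos
  smul_mem' := fun c x hx => by
    change ‖ev I hI (c * x)‖ < 1
    rw [map_mul]
    exact mul_lt (ev_le hI c) hx

lemma mem_PI {I : PadicAlgCl p} (hI : I ^ 2 + I + 1 = 0) (z : Ei) :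
    z ∈ PI hI ↔ ‖ev I hI z‖ < 1 := Iff.rfl

lemma fin_quot {I : PadicAlgCl p} (hI : I ^ 2 + I + 1 = 0) : Finite (Ei ⧸ PI hI) := by
  have hpp : p.Prime := Fact.out
  have hp0 : (0 : ℤ) < p := by exact_mod_cast hpp.pos
  have key : ∀ a : ℤ, ((a % p).toNat : ℤ) = a % p ∧ (a % p).toNat < p := by
    intro a
    have h1 := Int.emod_nonneg a hp0.ne'
    have h2 := Int.emod_lt_of_pos a hp0
    omega
  refine Finite.of_surjective (fun ab : Fin p × Fin p =>
    Ideal.Quotient.mk (PI hI) (⟨((ab.1 : ℕ) : ℤ), ((ab.2 : ℕ) : ℤ)⟩ : Ei)) ?_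
  intro q
  obtain ⟨z, rfl⟩ := Ideal.Quotient.mk_surjective q
  refine ⟨(⟨(z.re % p).toNat, (key _).2⟩, ⟨(z.im % p).toNat, (key _).2⟩), ?_⟩
  change Ideal.Quotient.mk (PI hI) (⟨(((z.re % p).toNat : ℕ) : ℤ),
    (((z.im % p).toNat : ℕ) : ℤ)⟩ : Ei) = _
  rw [Ideal.Quotient.eq, (key _).1, (key _).1]
  have e : (⟨z.re % p, z.im % p⟩ : Ei) - z = (⟨-(z.re / p), -(z.im / p)⟩ : Ei) * ((p : ℤ) : Ei) := by
    have h1 := Int.emod_add_mul_ediv z.re p
    have h2 := Int.emod_add_mul_ediv z.im p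
    ext
    · simp
      linarith
    · simp
      linarith
  rw [e]
  refine Ideal.mul_mem_left _ _ ?_
  rw [mem_PI, map_intCast]
  have := Pool.Agent.W571.RK.norm_p_lt_one (p := p)
  exact_mod_cast this

lemma max_PI {I : PadicAlgCl p} (hI : I ^ 2 + I + 1 = 0) : (PI hI).IsMaximal := by
  have hpr : (PI hI).IsPrime := by
    constructor
    · intro h
      have h1 : (1 : Ei) ∈ PI hI := by rw [h]; trivial
      rw [mem_PI, map_one, norm_one] at h1
      exact lt_irrefl _ h1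
    · intro a b hab
      by_contra hcon
      push Not at hcon
      rw [mem_PI] at hab
      have h1 := eq_one_of_not_lt hI (fun h => hcon.1 ((mem_PI hI a).2 h))
      have h2 := eq_one_of_not_lt hI (fun h => hcon.2 ((mem_PI hI b).2 h))
      rw [map_mul, norm_mul, h1, h2, one_mul] at hab
      exact lt_irrefl _ hab
  have := fin_quot hI
  exact Ideal.Quotient.maximal_of_isField _ (Finite.isField_of_domain _)

/-- CT-CUB -/
theorem t_CUB : S_CUB := by
  intro hFF p _ hp I hI B D hB hD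
  have hmax := max_PI hI
  have hfin := fin_quot hI
  have hB1 := eq_one_of_not_lt hI hB
  have hD1 := eq_one_of_not_lt hI hD
  have hBP : B ∉ PI hI := hB
  have hDP : D ∉ PI hI := hD
  have hB0 : ev I hI B ≠ 0 := by
    intro h
    rw [h, norm_zero] at hB1
    exact zero_ne_one hB1
  have hD0 : ev I hI D ≠ 0 := by
    intro h
    rw [h, norm_zero] at hD1
    exact zero_ne_one hD1
  obtain ⟨s₀, t₀, r₀, hne, he⟩ : ∃ s₀ t₀ r₀ : Ei, (s₀ ∉ PI hI ∨ t₀ ∉ PI hI ∨ r₀ ∉ PI hI) ∧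
      s₀ ^ 3 - (B ^ 2 * t₀ ^ 3 + B * D * r₀ ^ 3) ∈ PI hI := by
    let _ : Field (Ei ⧸ PI hI) := Ideal.Quotient.field (PI hI)
    have hn : ∀ z : Ei, Ideal.Quotient.mk (PI hI) z = 0 ↔ z ∈ PI hI := fun z =>
      Ideal.Quotient.eq_zero_iff_mem
    obtain ⟨x, y, z, hne, he⟩ := hFF (Ei ⧸ PI hI) (Ideal.Quotient.mk _ (B ^ 2))
      (Ideal.Quotient.mk _ (B * D))
      (fun h => hBP (hmax.isPrime.mem_of_pow_mem _ ((hn _).1 h)))
      (fun h => (hmax.isPrime.mem_or_mem ((hn _).1 h)).elim hBP hDP)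
    obtain ⟨s₀, rfl⟩ := Ideal.Quotient.mk_surjective x
    obtain ⟨t₀, rfl⟩ := Ideal.Quotient.mk_surjective y
    obtain ⟨r₀, rfl⟩ := Ideal.Quotient.mk_surjective z
    refine ⟨s₀, t₀, r₀, ?_, ?_⟩
    · rcases hne with h | h | h
      · exact Or.inl fun h1 => h ((hn _).2 h1)
      · exact Or.inr (Or.inl fun h1 => h ((hn _).2 h1))
      · exact Or.inr (Or.inr fun h1 => h ((hn _).2 h1))
    · rw [← Ideal.Quotient.eq]
      simp only [map_pow, map_add, map_mul] at he ⊢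
      exact he
  rw [mem_PI] at he
  simp only [map_sub, map_pow, map_add, map_mul] at he
  have hfix : ∀ z : Ei, ∀ τ : Au p, τ I = I → τ (ev I hI z) = ev I hI z :=
    fun z τ hτ => ev_fix hI hτ z
  rcases hne with h | h | h
  · obtain ⟨s, hs, hs1, hsf⟩ := hensel hI hp
      (c := ev I hI B ^ 2 * ev I hI t₀ ^ 3 + ev I hI B * ev I hI D * ev I hI r₀ ^ 3)
      (y := ev I hI s₀)
      (fun τ hτ => by simp only [map_add, map_mul, map_pow, hfix _ τ hτ])
      (hfix s₀) (eq_one_of_not_lt hI h) he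
    exact ⟨s, _, _, ⟨fun τ hτ => ⟨hsf τ hτ, hfix t₀ τ hτ, hfix r₀ τ hτ⟩, Or.inl (by
      rintro rfl
      rw [norm_zero] at hs1
      exact zero_ne_one hs1), hs⟩⟩
  · obtain ⟨s, hs, hs1, hsf⟩ := hensel hI hp
      (c := (ev I hI s₀ ^ 3 - ev I hI B * ev I hI D * ev I hI r₀ ^ 3) / ev I hI B ^ 2)
      (y := ev I hI t₀)
      (fun τ hτ => by simp only [map_div₀, map_sub, map_mul, map_pow, hfix _ τ hτ])
      (hfix t₀) (eq_one_of_not_lt hI h) (by
        have e1 : ev I hI t₀ ^ 3 - (ev I hI s₀ ^ 3 - ev I hI B * ev I hI D * ev I hI r₀ ^ 3) /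
            ev I hI B ^ 2 = -((ev I hI s₀ ^ 3 - (ev I hI B ^ 2 * ev I hI t₀ ^ 3 +
            ev I hI B * ev I hI D * ev I hI r₀ ^ 3)) / ev I hI B ^ 2) := by
          field_simp
          ring
        rw [e1, norm_neg, norm_div, norm_pow, hB1, one_pow, div_one]
        exact he)
    refine ⟨_, s, _, ⟨fun τ hτ => ⟨hfix s₀ τ hτ, hsf τ hτ, hfix r₀ τ hτ⟩, Or.inr (Or.inl (by
      rintro rfl
      rw [norm_zero] at hs1
      exact zero_ne_one hs1)), ?_⟩⟩
    rw [hs]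
    field_simp
    ring
  · obtain ⟨s, hs, hs1, hsf⟩ := hensel hI hp
      (c := (ev I hI s₀ ^ 3 - ev I hI B ^ 2 * ev I hI t₀ ^ 3) / (ev I hI B * ev I hI D))
      (y := ev I hI r₀)
      (fun τ hτ => by simp only [map_div₀, map_sub, map_mul, map_pow, hfix _ τ hτ])
      (hfix r₀) (eq_one_of_not_lt hI h) (by
        have e1 : ev I hI r₀ ^ 3 - (ev I hI s₀ ^ 3 - ev I hI B ^ 2 * ev I hI t₀ ^ 3) /
            (ev I hI B * ev I hI D) = -((ev I hI s₀ ^ 3 - (ev I hI B ^ 2 * ev I hI t₀ ^ 3 +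
            ev I hI B * ev I hI D * ev I hI r₀ ^ 3)) / (ev I hI B * ev I hI D)) := by
          field_simp
          ring
        rw [e1, norm_neg, norm_div, norm_mul, hB1, hD1, one_mul, div_one]
        exact he)
    refine ⟨_, _, s, ⟨fun τ hτ => ⟨hfix s₀ τ hτ, hfix t₀ τ hτ, hsf τ hτ⟩, Or.inr (Or.inr (by
      rintro rfl
      rw [norm_zero] at hs1
      exact zero_ne_one hs1)), ?_⟩⟩
    rw [hs]
    field_simp
    ring

end Pool.Agent.Y379.CT
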